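import Pool.Agent.Q31.GLV.Stm

/-!
Job NTT of project GLV.
-/

set_option autoImplicit false

namespace Pool.Agent.Q203.GLV

open Module Cardinal Submodule Pool.Agent.Q31.GLV

section
variable {F V : Type} [Field F] [AddCommGroup V] [Module F V]

theorem mul_app (a b : V ≃ₗ[F] V) (v : V) : (a * b) v = a (b v) := rfl

theorem app_inv (a : V ≃ₗ[F] V) (v : V) : a (a⁻¹ v) = v := a.apply_symm_apply v

theorem inv_app (a : V ≃ₗ[F] V) (v : V) : a⁻¹ (a v) = v := a.symm_apply_apply v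

/-- the restrictions to `U` of the members of `H` which are trivial on `V / U` -/
def NN (H : Subgroup (V ≃ₗ[F] V)) (U : Submodule F V) : Subgroup (U ≃ₗ[F] U) where
  carrier := {y | ∃ k ∈ H, (∀ u : U, k (u : V) = (y u : V)) ∧ ∀ v, k v - v ∈ U}
  one_mem' := ⟨1, H.one_mem, fun u => rfl, fun v => by
    change v - v ∈ U
    rw [sub_self]
    exact U.zero_mem⟩
  mul_mem' := by
    rintro y y' ⟨k, hk, h1, h2⟩ ⟨k', hk', h1', h2'⟩
    refine ⟨k * k', H.mul_mem hk hk', fun u => ?_, fun v => ?_⟩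
    · rw [mul_app, h1', h1]
      rfl
    · rw [mul_app]
      have := U.add_mem (h2 (k' v)) (h2' v)
      rwa [sub_add_sub_cancel] at this
  inv_mem' := by
    rintro y ⟨k, hk, h1, h2⟩
    refine ⟨k⁻¹, H.inv_mem hk, fun u => ?_, fun v => ?_⟩
    · have h3 := h1 (y⁻¹ u)
      rw [app_inv y u] at h3
      rw [← h3, inv_app]
    · have h3 := U.neg_mem (h2 (k⁻¹ v))
      rw [app_inv, neg_sub] at h3
      exact h3

theorem mem_NN {H : Subgroup (V ≃ₗ[F] V)} {U : Submodule F V} {y : U ≃ₗ[F] U} :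
    y ∈ NN H U ↔ ∃ k ∈ H, (∀ u : U, k (u : V) = (y u : V)) ∧ ∀ v, k v - v ∈ U := Iff.rfl

theorem NN_conj {H : Subgroup (V ≃ₗ[F] V)} {U : Submodule F V} (hH : Full H) (hU : Large U)
    (g : U ≃ₗ[F] U) {y : U ≃ₗ[F] U} (hy : y ∈ NN H U) : g * y * g⁻¹ ∈ NN H U := by
  obtain ⟨k, hk, h1, h2⟩ := hy
  obtain ⟨s, hs, hs'⟩ := hH U hU g
  have hs2 : ∀ u : U, s⁻¹ (u : V) = ((g⁻¹ u : U) : V) := by
    intro u
    have h3 := hs' (g⁻¹ u)
    rw [app_inv g u] at h3
    rw [← h3, inv_app]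
  refine ⟨s * k * s⁻¹, H.mul_mem (H.mul_mem hs hk) (H.inv_mem hs), fun u => ?_, fun v => ?_⟩
  · rw [mul_app, mul_app, hs2, h1, hs']
    rfl
  · rw [mul_app, mul_app]
    have h3 : s (k (s⁻¹ v)) - v = s (k (s⁻¹ v) - s⁻¹ v) := by
      rw [map_sub, app_inv]
    rw [h3]
    have h4 := hs' ⟨_, h2 (s⁻¹ v)⟩
    change s (k (s⁻¹ v) - s⁻¹ v) = _ at h4
    rw [h4]
    exact Subtype.mem _

end

theorem t_NTT (hCO : S_CO) (hS2 : S_S2) (hNF : S_NF) (hSP : S_SP) (hGEN : S_GEN) : S_NTT := by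
  intro F V ι _ _ _ h c e h0 H hH hh hc hι he hx hmem hL
  have hd : ∀ v, h v - c • v ∈ LinearMap.range ((h : V →ₗ[F] V) - c • LinearMap.id) := by
    intro v
    exact ⟨v, rfl⟩
  have hst : ∀ u ∈ LinearMap.range ((h : V →ₗ[F] V) - c • LinearMap.id),
      h u ∈ LinearMap.range ((h : V →ₗ[F] V) - c • LinearMap.id) := by
    rintro _ ⟨w, rfl⟩
    refine ⟨h w, ?_⟩
    change h (h w) - c • h w = h (h w - c • w)
    rw [map_sub, map_smul]
  have hst' : ∀ u ∈ LinearMap.range ((h : V →ₗ[F] V) - c • LinearMap.id),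
      h.symm u ∈ LinearMap.range ((h : V →ₗ[F] V) - c • LinearMap.id) := by
    rintro _ ⟨w, rfl⟩
    refine ⟨h.symm w, ?_⟩
    change h (h.symm w) - c • h.symm w = h.symm (h w - c • w)
    rw [map_sub, map_smul, h.apply_symm_apply, h.symm_apply_apply]
  generalize LinearMap.range ((h : V →ₗ[F] V) - c • LinearMap.id) = U at hmem hL hd hst hst'
  have hrk : ℵ₀ ≤ Module.rank F U := by rw [hL.1]; exact h0
  let x : U ≃ₗ[F] U :=
    { toFun := fun u => ⟨h u, hst u u.2⟩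
      map_add' := fun a b => Subtype.ext (map_add h (a : V) b)
      map_smul' := fun r a => Subtype.ext (map_smul h r (a : V))
      invFun := fun u => ⟨h.symm u, hst' u u.2⟩
      left_inv := fun u => Subtype.ext (h.symm_apply_apply (u : V))
      right_inv := fun u => Subtype.ext (h.apply_symm_apply (u : V)) }
  have hxv : ∀ u : U, (x u : V) = h (u : V) := fun _ => rfl
  let e' : ι × ℤ → U := fun p => ⟨e p, hmem p⟩
  have he' : LinearIndependent F e' := by
    apply LinearIndependent.of_comp U.subtype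
    exact he
  have hxe : ∀ i n, x (e' (i, n)) = e' (i, n + 1) := by
    intro i n
    apply Subtype.ext
    exact hx i n
  obtain ⟨f, δ, hδ, hf⟩ := hS2 F U ι e' x hrk (by rw [hι, hL.1]) he' hxe
  have hcom : x * f * x⁻¹ * f⁻¹ ∈ NN H U := hCO F V H hH U hL h hh c hc hd x hxv f
  have hgood : ∀ (s : U ≃ₗ[F] U) (δ' : U →ₗ[F] U), Good δ' → (∀ v, s v = v + δ' v) →
      s ∈ NN H U := by
    intro s δ' hδ' hs
    obtain ⟨φ, hφ⟩ := hNF F U hrk δ hδ
    obtain ⟨φ', hφ'⟩ := hNF F U hrk δ' hδ'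
    let ψ : U ≃ₗ[F] U := φ.trans φ'.symm
    have hψ : ∀ v, φ' (ψ v) = φ v := fun v => φ'.apply_symm_apply (φ v)
    have h5 : ∀ v, ψ (δ v) = δ' (ψ v) := by
      intro v
      apply φ'.injective
      rw [hψ, hφ, hφ', hψ]
    have h6 : s = ψ * (x * f * x⁻¹ * f⁻¹) * ψ⁻¹ := by
      apply LinearEquiv.ext
      intro v
      rw [mul_app, mul_app, hf, map_add, h5, app_inv, hs]
    rw [h6]
    exact NN_conj hH hL ψ hcom
  have htop := hGEN F U hrk (NN H U) (hSP F U hrk (NN H U) hgood)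
  intro y
  have hy : y ∈ NN H U := by
    rw [htop]
    exact Subgroup.mem_top y
  exact hy

end Pool.Agent.Q203.GLV
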